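import Mathlib
import Pool.Agent.Lib.helper29.Orbit2

set_option autoImplicit false

namespace Pool.Agent.Results.MP_fbf723_an.Both

open MeasureTheory Pool.Agent.Lib.H29.Orbit

/-- An overcomplete Gabor frame admits a bounded representation for neither index set; hence, if it
admits one for one of them, it admits one for both. -/
theorem result : ∀ (a b : ℝ) (g : Lp ℂ 2 (volume : Measure ℝ))
    (v : ℤ × ℤ → Lp ℂ 2 (volume : Measure ℝ)), 0 < a → 0 < b → g ≠ 0 → IsGabor a b g v →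
    IsFrame v → ¬ IsRieszBasis v →
    (((∃ σ : ℕ ≃ ℤ × ℤ, BoundedRep (v ∘ σ)) ∨ (∃ σ : ℤ ≃ ℤ × ℤ, BoundedRep (v ∘ σ))) →
      (∃ σ : ℕ ≃ ℤ × ℤ, BoundedRep (v ∘ σ)) ∧ (∃ σ : ℤ ≃ ℤ × ℤ, BoundedRep (v ∘ σ))) ∧
    ¬ ((∃ σ : ℕ ≃ ℤ × ℤ, BoundedRep (v ∘ σ)) ∨ (∃ σ : ℤ ≃ ℤ × ℤ, BoundedRep (v ∘ σ))) := by
  intro a b g v _ _ _ hv hf hR
  obtain ⟨h0, h1⟩ := gabor_norm hv hf
  have : Fact ((2 : ENNReal) ≠ ⊤) := ⟨by norm_num⟩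
  obtain ⟨e⟩ := exists_basis hf h0 h1
  have key : ¬ ((∃ σ : ℕ ≃ ℤ × ℤ, BoundedRep (v ∘ σ)) ∨ (∃ σ : ℤ ≃ ℤ × ℤ, BoundedRep (v ∘ σ))) := by
    rintro (⟨σ, h⟩ | ⟨σ, h⟩)
    · exact hR (abstract_nat e hf h0 h1 σ h)
    · exact hR (abstract_int e hf h0 h1 (gabor_cov hv) σ h)
  exact ⟨fun h => (key h).elim, key⟩

end Pool.Agent.Results.MP_fbf723_an.Both
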